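import Pool.Agent.Y461.KM.Stm

set_option autoImplicit false

namespace Pool.Agent.Y486.KM

open Pool.Agent.Y461.KM

variable {n : ℕ} (A : Matrix (Fin n) (Fin n) ℤ)

/-- the value of the simple root `j` -/
def ap (j : Fin n) (v : Fin n → ℤ) : ℤ := ∑ k, v k * A k j

lemma pr_single (j : Fin n) (v : Fin n → ℤ) : pr A (Pi.single j 1) v = ap A j v := by
  unfold pr ap
  apply Finset.sum_congr rfl
  intro k _
  rw [Finset.sum_eq_single j]
  · simp
  · intro l _ hl
    simp [Pi.single_eq_of_ne hl]
  · intro h; exact absurd (Finset.mem_univ j) h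

lemma pr_single_right (r : Fin n → ℤ) (j : Fin n) :
    pr A r (Pi.single j 1) = ∑ l, A j l * r l := by
  unfold pr
  rw [Finset.sum_eq_single j]
  · simp
  · intro k _ hk
    simp [Pi.single_eq_of_ne hk]
  · intro h; exact absurd (Finset.mem_univ j) h

lemma ap_single (i j : Fin n) : ap A j (Pi.single i 1) = A i j := by
  unfold ap
  rw [Finset.sum_eq_single i]
  · simp
  · intro k _ hk
    simp [Pi.single_eq_of_ne hk]
  · intro h; exact absurd (Finset.mem_univ i) h

lemma pr_sv (r v : Fin n → ℤ) (j : Fin n) :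
    pr A r (sv A j v) = pr A r v - ap A j v * pr A r (Pi.single j 1) := by
  rw [pr_single_right]
  unfold pr sv ap
  simp only [sub_mul, Finset.sum_sub_distrib]
  congr 1
  rw [Finset.sum_eq_single j]
  · simp only [if_true]
    rw [Finset.mul_sum]
    exact Finset.sum_congr rfl (fun l _ => by ring)
  · intro k _ hk
    simp [hk]
  · intro h; exact absurd (Finset.mem_univ j) h

lemma pr_sr (r v : Fin n → ℤ) (j : Fin n) :
    pr A (sr A j r) v = pr A r v - pr A r (Pi.single j 1) * ap A j v := by
  rw [pr_single_right]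
  unfold pr sr ap
  simp only [mul_sub, Finset.sum_sub_distrib]
  congr 1
  rw [Finset.mul_sum]
  apply Finset.sum_congr rfl
  intro k _
  rw [Finset.sum_eq_single j]
  · simp only [if_true]
    ring
  · intro l _ hl
    simp [hl]
  · intro h; exact absurd (Finset.mem_univ j) h

lemma pr_sr_eq (r v : Fin n → ℤ) (j : Fin n) : pr A (sr A j r) v = pr A r (sv A j v) := by
  rw [pr_sr, pr_sv, mul_comm]

lemma ap_sv (v : Fin n → ℤ) (i j : Fin n) : ap A i (sv A j v) = ap A i v - ap A j v * A j i := by
  rw [← pr_single, pr_sv, pr_single, pr_single, ap_single]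

/-- the growth function -/
noncomputable def lm (u : Fin n → ℝ) (v : Fin n → ℤ) : ℝ := -∑ j, u j * (ap A j v : ℝ)

lemma lm_single (u : Fin n → ℝ) (k : Fin n) :
    lm A u (Pi.single k 1) = -∑ j, (A k j : ℝ) * u j := by
  unfold lm
  congr 1
  apply Finset.sum_congr rfl
  intro j _
  rw [ap_single, mul_comm]

lemma lm_sv (u : Fin n → ℝ) (v : Fin n → ℤ) (j : Fin n) :
    lm A u (sv A j v) = lm A u v - (ap A j v : ℝ) * lm A u (Pi.single j 1) := by
  rw [lm_single]
  unfold lm
  have h1 : ∀ i, u i * (ap A i (sv A j v) : ℝ) =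
      u i * (ap A i v : ℝ) - (ap A j v : ℝ) * ((A j i : ℝ) * u i) := by
    intro i
    rw [ap_sv]
    push_cast
    ring
  rw [Finset.sum_congr rfl (fun i _ => h1 i), Finset.sum_sub_distrib, ← Finset.mul_sum]
  ring

/-- bound of the growth function -/
lemma lm_le (u : Fin n → ℝ) (hu : ∀ i, 0 < u i) (v : Fin n → ℤ) (K : ℝ)
    (hK : ∀ i, |(ap A i v : ℝ)| ≤ K) : lm A u v ≤ K * ∑ i, u i := by
  unfold lm
  rw [← Finset.sum_neg_distrib, Finset.mul_sum]
  apply Finset.sum_le_sum
  intro i _
  have h1 : -(ap A i v : ℝ) ≤ K := (neg_le_abs _).trans (hK i)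
  have := mul_le_mul_of_nonneg_left h1 (hu i).le
  linarith

lemma exists_large (u : Fin n → ℝ) (hu : ∀ i, 0 < u i) (v : Fin n → ℤ) (hv : 0 < lm A u v) :
    ∃ j, lm A u v ≤ (∑ i, u i) * (-(ap A j v : ℝ)) := by
  by_contra hcon
  push Not at hcon
  have hne : (Finset.univ : Finset (Fin n)).Nonempty := by
    by_contra h
    rw [Finset.not_nonempty_iff_eq_empty] at h
    unfold lm at hv
    rw [h] at hv
    simp at hv
  have hU : 0 < ∑ i, u i := Finset.sum_pos (fun i _ => hu i) hne
  have h1 : ∑ j, u j * ((∑ i, u i) * (-(ap A j v : ℝ))) < ∑ j, u j * lm A u v :=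
    Finset.sum_lt_sum_of_nonempty hne (fun j _ => mul_lt_mul_of_pos_left (hcon j) (hu j))
  have h2 : ∑ j, u j * ((∑ i, u i) * (-(ap A j v : ℝ))) = (∑ i, u i) * lm A u v := by
    unfold lm
    rw [← Finset.sum_neg_distrib, Finset.mul_sum]
    exact Finset.sum_congr rfl (fun j _ => by ring)
  rw [h2, ← Finset.sum_mul] at h1
  exact lt_irrefl _ h1

lemma greedy (hA : Indef A) : ∃ u : Fin n → ℝ, (∀ i, 0 < u i) ∧
    ∀ (i : Fin n) (B : ℝ), ∃ w : List (Fin n), B < lm A u (cv A w i) := by
  obtain ⟨u, hu, hAu⟩ := hA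
  refine ⟨u, hu, ?_⟩
  intro i B
  have hne : (Finset.univ : Finset (Fin n)).Nonempty := ⟨i, Finset.mem_univ i⟩
  have hU : 0 < ∑ i, u i := Finset.sum_pos (fun i _ => hu i) hne
  have hl : ∀ k, 0 < lm A u (Pi.single k 1) := by
    intro k
    rw [lm_single]
    linarith [hAu k]
  obtain ⟨k0, _, hk0⟩ := Finset.exists_min_image Finset.univ (fun k => lm A u (Pi.single k 1)) hne
  set ε := lm A u (Pi.single k0 1) with hε
  have hε0 : 0 < ε := hl k0
  have hc : 0 < ε / ∑ i, u i := by positivity
  have step : ∀ t : ℕ, ∃ w : List (Fin n),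
      (1 + ε / ∑ i, u i) ^ t * lm A u (Pi.single i 1) ≤ lm A u (cv A w i) := by
    intro t
    induction t with
    | zero => exact ⟨[], by simp [cv]⟩
    | succ t ih =>
      obtain ⟨w, hw⟩ := ih
      have hpos : 0 < lm A u (cv A w i) := lt_of_lt_of_le (by
        have := hl i
        positivity) hw
      obtain ⟨j, hj⟩ := exists_large A u hu _ hpos
      refine ⟨j :: w, ?_⟩
      have h1 : cv A (j :: w) i = sv A j (cv A w i) := rfl
      rw [h1, lm_sv]
      have h2 : lm A u (cv A w i) / (∑ i, u i) ≤ -(ap A j (cv A w i) : ℝ) := by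
        rw [div_le_iff₀ hU]
        linarith
      have h3 : lm A u (cv A w i) / (∑ i, u i) * ε ≤
          -(ap A j (cv A w i) : ℝ) * lm A u (Pi.single j 1) :=
        mul_le_mul h2 (hk0 j (Finset.mem_univ j)) hε0.le (le_trans (by positivity) h2)
      have h4 : (1 + ε / ∑ i, u i) ^ (t + 1) * lm A u (Pi.single i 1) ≤
          (1 + ε / ∑ i, u i) * lm A u (cv A w i) := by
        rw [pow_succ]
        have := mul_le_mul_of_nonneg_left hw (by positivity : 0 ≤ 1 + ε / ∑ i, u i)
        linarith
      have h5 : (1 + ε / ∑ i, u i) * lm A u (cv A w i) =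
          lm A u (cv A w i) + lm A u (cv A w i) / (∑ i, u i) * ε := by
        field_simp
      linarith
  obtain ⟨t, ht⟩ := pow_unbounded_of_one_lt (B / lm A u (Pi.single i 1))
    (by linarith : 1 < 1 + ε / ∑ i, u i)
  obtain ⟨w, hw⟩ := step t
  refine ⟨w, lt_of_lt_of_le ?_ hw⟩
  rwa [div_lt_iff₀ (hl i)] at ht

theorem con : S_CON := by
  intro n A hG hI hD E hE hcons hinv hself hsmall
  obtain ⟨u, hu, hgr⟩ := greedy A hD
  -- values of the simple roots on real coroots outside the class
  have hout : ∀ (j : Fin n) (w : List (Fin n)) (i : Fin n), ¬ E ([], j) (w, i) →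
      |ap A j (cv A w i)| ≤ 3 := by
    intro j w i h
    have := hsmall [] w j i h
    have h1 : rt A [] j = Pi.single j 1 := rfl
    rwa [h1, pr_single] at this
  by_contra hcon
  push Not at hcon
  obtain ⟨i1, i2, hi12⟩ := hcon
  have hUpos : 0 < ∑ i, u i := Finset.sum_pos (fun i _ => hu i) ⟨i1, Finset.mem_univ i1⟩
  -- step 1
  have hstep1 : ∃ j0 : Fin n, ∀ B : ℝ, ∃ w i, E ([], j0) (w, i) ∧ B < lm A u (cv A w i) := by
    by_contra hno
    push Not at hno
    choose B hB using hno
    obtain ⟨w, hw⟩ := hgr i1 (∑ j, |B j| + 3 * ∑ i, u i)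
    have hs0 : 0 ≤ ∑ j, |B j| := Finset.sum_nonneg (fun j _ => abs_nonneg _)
    have hpos : 0 < lm A u (cv A w i1) := by linarith
    obtain ⟨j, hj⟩ := exists_large A u hu _ hpos
    have h3 : (3 : ℝ) < -(ap A j (cv A w i1) : ℝ) := by
      by_contra h
      push Not at h
      have := mul_le_mul_of_nonneg_left h hUpos.le
      linarith
    have hE1 : E ([], j) (w, i1) := by
      by_contra h
      have h4 := hout j w i1 h
      have h5 : |(ap A j (cv A w i1) : ℝ)| ≤ 3 := by exact_mod_cast h4
      have h6 := neg_le_abs (ap A j (cv A w i1) : ℝ)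
      linarith
    have h7 := hB j w i1 hE1
    have h8 : B j ≤ ∑ j, |B j| :=
      (le_abs_self _).trans (Finset.single_le_sum (f := fun j => |B j|)
        (fun j _ => abs_nonneg _) (Finset.mem_univ j))
    linarith
  obtain ⟨j0, hj0⟩ := hstep1
  -- the class is stable
  have hstab : ∀ (j : Fin n) (w : List (Fin n)) (i : Fin n), E ([], j0) (w, i) →
      E ([], j0) (j :: w, i) := by
    intro j w i hw
    by_cases hj : E ([], j0) ([], j)
    · have h1 : E ([], j) (w, i) := hE.trans (hE.symm hj) hw
      have h2 := hcons j [] w j i h1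
      exact hE.trans hj (hE.trans (hE.symm (hself j)) h2)
    · by_contra hno
      have hall : ∀ (w' : List (Fin n)) (i' : Fin n), E ([], j0) (w', i') →
          ¬ E ([], j0) (j :: w', i') := by
        intro w' i' h1 h2
        apply hno
        exact hE.trans h2 (hcons j w' w i' i (hE.trans (hE.symm h1) hw))
      obtain ⟨w1, i1', h1, h2⟩ := hj0 (12 * ∑ i, u i)
      apply absurd h2
      push Not
      apply lm_le A u hu
      intro l
      have hjb : |ap A j (cv A w1 i1')| ≤ 3 := by
        apply hout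
        intro h
        exact hj (hE.trans h1 (hE.symm h))
      by_cases hl : E ([], j0) ([], l)
      · have h3 : ¬ E ([], l) (j :: w1, i1') := fun h => hall w1 i1' h1 (hE.trans hl h)
        have h4 := hout l (j :: w1) i1' h3
        have h5 : cv A (j :: w1) i1' = sv A j (cv A w1 i1') := rfl
        rw [h5, ap_sv] at h4
        have h6 : |A j l| ≤ 3 := by
          have h7 : ¬ E ([], l) ([], j) := fun h => hj (hE.trans hl h)
          have h8 := hout l [] j h7
          have h9 : cv A [] j = Pi.single j 1 := rfl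
          rwa [h9, ap_single] at h8
        have h7 : |ap A j (cv A w1 i1') * A j l| ≤ 9 := by
          rw [abs_mul]
          calc |ap A j (cv A w1 i1')| * |A j l| ≤ 3 * 3 :=
                mul_le_mul hjb h6 (abs_nonneg _) (by norm_num)
            _ = 9 := by norm_num
        have h8 : |ap A l (cv A w1 i1')| ≤ 12 := by
          have h9 : ap A l (cv A w1 i1') = (ap A l (cv A w1 i1') - ap A j (cv A w1 i1') * A j l) +
              ap A j (cv A w1 i1') * A j l := by ring
          rw [h9]
          refine (abs_add_le _ _).trans ?_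
          linarith
        exact_mod_cast h8
      · have h3 : |ap A l (cv A w1 i1')| ≤ 3 := by
          apply hout
          intro h
          exact hl (hE.trans h1 (hE.symm h))
        have h4 : |(ap A l (cv A w1 i1') : ℝ)| ≤ 3 := by exact_mod_cast h3
        linarith
  have hall : ∀ w : List (Fin n), E ([], j0) (w, j0) := by
    intro w
    induction w with
    | nil => exact hE.refl _
    | cons j w ih => exact hstab j w j0 ih
  -- there is a simple root outside of the class
  obtain ⟨j, hj⟩ : ∃ j, ¬ E ([], j0) ([], j) := by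
    by_contra h
    push Not at h
    exact hi12 (hE.trans (hE.symm (h i1)) (h i2))
  -- the set of simple roots with bounded values
  classical
  set S : Finset (Fin n) := Finset.univ.filter
    (fun i => ∃ K : ℤ, ∀ w : List (Fin n), |ap A i (cv A w j0)| ≤ K) with hS
  have hjS : j ∈ S := by
    rw [hS, Finset.mem_filter]
    refine ⟨Finset.mem_univ j, 3, ?_⟩
    intro w
    apply hout
    intro h
    exact hj (hE.trans (hall w) (hE.symm h))
  have hSu : S = Finset.univ := by
    by_contra hne
    obtain ⟨i, hi, l, hl, hil⟩ := hI S ⟨j, hjS⟩ hne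
    apply hl
    rw [hS, Finset.mem_filter] at hi ⊢
    obtain ⟨_, K, hK⟩ := hi
    refine ⟨Finset.mem_univ l, 2 * K, ?_⟩
    intro w
    have hli : A l i ≠ 0 := fun h => hil ((hG.2.2 i l).mpr h)
    have h1 := hK w
    have h2 := hK (l :: w)
    have h3 : cv A (l :: w) j0 = sv A l (cv A w j0) := rfl
    rw [h3, ap_sv] at h2
    have h4 : |ap A l (cv A w j0) * A l i| ≤ 2 * K := by
      have h5 : ap A l (cv A w j0) * A l i = ap A i (cv A w j0) -
        (ap A i (cv A w j0) - ap A l (cv A w j0) * A l i) := by ring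
      rw [h5]
      refine (abs_sub _ _).trans ?_
      linarith
    rw [abs_mul] at h4
    have h5 : 1 ≤ |A l i| := Int.one_le_abs hli
    have h6 := le_mul_of_one_le_right (abs_nonneg (ap A l (cv A w j0))) h5
    linarith
  have hb : ∀ i, ∃ K : ℤ, ∀ w : List (Fin n), |ap A i (cv A w j0)| ≤ K := by
    intro i
    have : i ∈ S := by rw [hSu]; exact Finset.mem_univ i
    rw [hS, Finset.mem_filter] at this
    exact this.2
  choose K hK using hb
  obtain ⟨w, hw⟩ := hgr j0 ((∑ i, |(K i : ℝ)|) * ∑ i, u i)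
  apply absurd hw
  push Not
  apply lm_le A u hu
  intro i
  have h1 : |(ap A i (cv A w j0) : ℝ)| ≤ K i := by exact_mod_cast hK i w
  exact h1.trans ((le_abs_self _).trans (Finset.single_le_sum (f := fun i => |(K i : ℝ)|)
    (fun i _ => abs_nonneg _) (Finset.mem_univ i)))

end Pool.Agent.Y486.KM
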